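import Pool.Agent.Helper35_XQ.Stmt

/-!
Squad XQ (MP_5b0138_an), Part A2, module GI_VLM (helper38): the mass of the loops which visit all
sides of the isosceles triangle.
-/

set_option autoImplicit false

namespace Pool.Agent.XQ.GI.H38

open MeasureTheory Complex Filter Topology Pool.Agent.H62T Pool.Agent.H60K Pool.Agent.XQ.GI
open scoped ENNReal NNReal

/-- mirror `x ↦ - conj x` -/
noncomputable def mir : ℂ ≃ₗᵢ[ℝ] ℂ := Complex.conjLIE.trans (LinearIsometryEquiv.neg ℝ)

lemma mir_re (x : ℂ) : (mir x).re = -x.re := by simp [mir]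

lemma mir_im (x : ℂ) : (mir x).im = x.im := by simp [mir]

lemma kME_univ (u : Fin 3 → ℂ) (h : Fin 3 → ℝ) (t : ℝ) (x y : ℂ) :
    kME u h Finset.univ ∅ t x y = kA u h Finset.univ t x y := by
  unfold kME kA
  simp

lemma norm_uI (α : ℝ) (s : Fin 3) : ‖uI α s‖ = 1 := by
  have h0 : Real.sin α ^ 2 + Real.cos α ^ 2 = 1 := Real.sin_sq_add_cos_sq α
  have h1 : ‖uI α s‖ ^ 2 = 1 := by
    rw [← Complex.normSq_eq_norm_sq, Complex.normSq_apply]
    fin_cases s <;> simp [uI] <;> nlinarith
  have h2 : 0 ≤ ‖uI α s‖ := norm_nonneg _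
  nlinarith

open Classical in
/-- sum of the kernels over a set of labels -/
noncomputable def SP (u : Fin 3 → ℂ) (h : Fin 3 → ℝ) (P : Lb → Prop) (t : ℝ) (x : ℂ) : ℝ :=
  ∑ f : Lb, if P f then KO u h f t x x else 0

lemma pw3_swap (w : Wd) : pw3 (Equiv.swap 0 2) (pw3 (Equiv.swap 0 2) w) = w := by
  apply Subtype.ext
  have h1 : (⇑(Equiv.swap (0 : Fin 3) 2) ∘ ⇑(Equiv.swap (0 : Fin 3) 2)) = id := by
    funext s
    simp
  simp only [pw3, List.map_map, h1, List.map_id]

lemma pl_invol (f : Lb) : pl (Equiv.swap 0 2) (pl (Equiv.swap 0 2) f) = f := by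
  funext w
  have h1 : (Equiv.swap (0 : Fin 3) 2)⁻¹ = Equiv.swap 0 2 := Equiv.swap_inv _ _
  simp only [pl, h1, pw3_swap]

theorem vlm (hlst : LstStatement) (hord : OrdStatement) (hsym : SymStatement) :
    VlmStatement := by
  classical
  intro α b t hα hα2 hb ht hfin
  set u := uI α with hu
  set h := hI α b with hh
  have hun : ∀ s, ‖u s‖ = 1 := norm_uI α
  obtain ⟨hmeas, hprop⟩ := hord u h hun
  obtain ⟨-, -, -, -, -, -, -, hLpm, -, hpl⟩ := hlst
  have hK0 : ∀ f x, 0 ≤ KO u h f t x x := fun f x => (hprop t x x ht).2.1 f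
  have hKR : ∀ f x, KO u h f t x x ≠ 0 → Rz f := fun f x => (hprop t x x ht).2.2.1 f
  have hKm : ∀ f, Measurable (fun x => KO u h f t x x) := by
    intro f
    have h2 : Measurable (fun x : ℂ => (t, x, x)) :=
      measurable_const.prodMk (measurable_id.prodMk measurable_id)
    exact (hmeas f).comp h2
  have hSm : ∀ P : Lb → Prop, Measurable (SP u h P t) := by
    intro P
    refine Finset.measurable_sum _ fun f _ => ?_
    by_cases hP : P f
    · simpa only [hP, if_true] using hKm f
    · simp only [hP, if_false]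
      exact measurable_const
  have hS0 : ∀ (P : Lb → Prop) x, 0 ≤ SP u h P t x := by
    intro P x
    refine Finset.sum_nonneg fun f _ => ?_
    split_ifs
    · exact hK0 f x
    · exact le_rfl
  have hmono : ∀ (P Q : Lb → Prop), (∀ f, P f → Q f) → ∀ x, SP u h P t x ≤ SP u h Q t x := by
    intro P Q hPQ x
    refine Finset.sum_le_sum fun f _ => ?_
    by_cases hP : P f
    · simp [hP, hPQ f hP]
    · simp only [hP, if_false]
      split_ifs
      · exact hK0 f x
      · exact le_rfl
  have hkey : ∀ x, kME u h Finset.univ ∅ t x x = SP u h (fun f => Lp f ∨ Lm f) t x := by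
    intro x
    rw [kME_univ, (hprop t x x ht).2.2.2.2.2 Finset.univ]
    refine Finset.sum_congr rfl fun f _ => ?_
    by_cases hz : KO u h f t x x = 0
    · simp [hz]
    · have hR := hKR f x hz
      have := hLpm f hR
      by_cases hv : vs f = Finset.univ
      · simp [hv, this.2 hv]
      · have : ¬ (Lp f ∨ Lm f) := fun hc => hv (this.1 hc)
        simp [hv, this]
  have hadd : ∀ x, SP u h (fun f => Lp f ∨ Lm f) t x
      = SP u h Lp t x + SP u h Lm t x - SP u h (fun f => Lp f ∧ Lm f) t x := by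
    intro x
    unfold SP
    rw [← Finset.sum_add_distrib, ← Finset.sum_sub_distrib]
    refine Finset.sum_congr rfl fun f _ => ?_
    by_cases h1 : Lp f <;> by_cases h2 : Lm f <;> simp [h1, h2]
  have hLM : ∀ P : Lb → Prop, LM u h P t = ∫⁻ x, ENNReal.ofReal (SP u h P t x) := fun P => rfl
  have hfin' : LM u h (fun f => Lp f ∨ Lm f) t ≠ ⊤ := by
    rw [hLM]
    simpa only [hkey] using hfin
  have hfinP : ∀ P : Lb → Prop, (∀ f, P f → Lp f ∨ Lm f) → LM u h P t ≠ ⊤ := by
    intro P hP
    refine ne_top_of_le_ne_top hfin' ?_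
    rw [hLM, hLM]
    exact lintegral_mono fun x => ENNReal.ofReal_le_ofReal (hmono _ _ hP x)
  have hint : ∀ P : Lb → Prop, (∀ f, P f → Lp f ∨ Lm f) → Integrable (SP u h P t) := by
    intro P hP
    refine ⟨(hSm P).aestronglyMeasurable, ?_⟩
    rw [hasFiniteIntegral_iff_ofReal (Eventually.of_forall (hS0 P))]
    exact lt_top_iff_ne_top.2 (hfinP P hP)
  have htoR : ∀ P : Lb → Prop, (LM u h P t).toReal = ∫ x, SP u h P t x := by
    intro P
    rw [integral_eq_lintegral_of_nonneg_ae (Eventually.of_forall (hS0 P))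
      (hSm P).aestronglyMeasurable]
    rfl
  have hmirror : ∀ x, SP u h Lm t (mir x) = SP u h Lp t x := by
    intro x
    have hs : ∀ (s : Fin 3) (x : ℂ), h s ≤ ip (u s) (mir.toIsometryEquiv x) ↔
        h (Equiv.swap 0 2 s) ≤ ip (u (Equiv.swap 0 2 s)) x := by
      intro s x
      have e1 : (mir.toIsometryEquiv x).re = -x.re := mir_re x
      have e2 : (mir.toIsometryEquiv x).im = x.im := mir_im x
      have e3 : h (Equiv.swap 0 2 s) = h s := by
        rw [hh]
        fin_cases s <;> simp [hI, Equiv.swap_apply_def]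
      have e4 : ip (u s) (mir.toIsometryEquiv x) = ip (u (Equiv.swap 0 2 s)) x := by
        unfold ip
        rw [e1, e2, hu]
        fin_cases s <;> simp [uI, Equiv.swap_apply_def]
      rw [e3, e4]
    have hK : ∀ f, KO u h f t (mir x) (mir x) = KO u h (pl (Equiv.swap 0 2) f) t x x :=
      fun f => hsym u h (Equiv.swap 0 2) mir.toIsometryEquiv hs f t x x ht
    unfold SP
    have hbij : Function.Involutive (pl (Equiv.swap 0 2)) := pl_invol
    rw [← Equiv.sum_comp (Function.Involutive.toPerm _ hbij)]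
    refine Finset.sum_congr rfl fun f _ => ?_
    have e1 : Function.Involutive.toPerm _ hbij f = pl (Equiv.swap 0 2) f := rfl
    rw [e1, hK, pl_invol]
    have e2 := (hpl f).1
    by_cases h1 : Lp f
    · simp [h1, e2.1 h1]
    · have : ¬ Lm (pl (Equiv.swap 0 2) f) := fun hc => h1 (e2.2 hc)
      simp [h1, this]
  have hLL : LM u h Lm t = LM u h Lp t := by
    rw [hLM, hLM]
    have h1 := (mir.measurePreserving).lintegral_comp
      (f := fun x => ENNReal.ofReal (SP u h Lm t x)) (hSm Lm).ennreal_ofReal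
    rw [← h1]
    simp only [hmirror]
  refine ⟨hfinP _ fun f hf => Or.inl hf, hfinP _ fun f hf => Or.inl hf.1, ?_⟩
  unfold VM
  simp only [hkey, hadd]
  rw [integral_sub, integral_add, ← htoR, ← htoR, ← htoR, hLL]
  · ring
  · exact hint _ fun f hf => Or.inl hf
  · exact hint _ fun f hf => Or.inr hf
  · exact (hint _ fun f hf => Or.inl hf).add (hint _ fun f hf => Or.inr hf)
  · exact hint _ fun f hf => Or.inl hf.1

end Pool.Agent.XQ.GI.H38
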